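import Mathlib
import Pool.Graph.R_seed8.R246.MomentA
import Pool.Graph.R_seed8.R246.MomentB
import Pool.Graph.R_seed8.R246.MomentC

/-! # Even moments of exponential sums over a finite family of points of a finite abelian group -/

namespace Pool.Agent.KS6_25.BK

open Finset ComplexConjugate Pool.Agent.R246.MomentA

variable {ι : Type*} [Fintype ι] [DecidableEq ι] {G : Type*} [AddCommGroup G]

/-- The sums of `k` members of the family `v` are different, up to the order of the summands. -/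
def IsB (k : ℕ) (v : ι → G) : Prop :=
  ∀ m m' : ι → ℕ, ∑ t, m t = k → ∑ t, m' t = k → ∑ t, m t • v t = ∑ t, m' t • v t → m = m'

section abstract

variable [Finite G] [DecidableEq G] {X : Type*} [Fintype X] (ψ : X → AddChar G ℂ)

lemma sum_sq (hor : ∀ g : G, g ≠ 0 → ∑ x, ψ x g = 0) {A : Type*} (T : Finset A)
    (c : A → ℂ) (w : A → G) :
    ((∑ x, ‖∑ a ∈ T, c a * ψ x (w a)‖ ^ 2 : ℝ) : ℂ) =
      (Fintype.card X : ℂ) * ∑ a ∈ T, ∑ b ∈ T, if w a = w b then c a * conj (c b) else 0 := by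
  push_cast
  have h1 : ∀ x : X, ((‖∑ a ∈ T, c a * ψ x (w a)‖ : ℝ) : ℂ) ^ 2 =
      ∑ a ∈ T, ∑ b ∈ T, c a * conj (c b) * ψ x (w a - w b) := by
    intro x
    rw [← Complex.mul_conj', map_sum, Finset.sum_mul_sum]
    refine Finset.sum_congr rfl fun a _ => Finset.sum_congr rfl fun b _ => ?_
    rw [map_mul, ← AddChar.map_neg_eq_conj, sub_eq_add_neg, AddChar.map_add_eq_mul]
    ring
  simp_rw [h1]
  rw [Finset.sum_comm, Finset.mul_sum]
  refine Finset.sum_congr rfl fun a _ => ?_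
  rw [Finset.sum_comm, Finset.mul_sum]
  refine Finset.sum_congr rfl fun b _ => ?_
  rw [← Finset.mul_sum]
  split_ifs with h
  · rw [h, sub_self]
    simp only [AddChar.map_zero_eq_one]
    rw [Finset.sum_const, card_univ, nsmul_eq_mul]
    ring
  · rw [hor _ (sub_ne_zero.2 h)]
    ring

omit [Finite G] [DecidableEq G] [Fintype X] in
lemma pow_expand (v : ι → G) (f : ι → ℂ) (k : ℕ) (x : X) :
    (∑ t, f t * ψ x (v t)) ^ k = ∑ m ∈ piAntidiag (univ : Finset ι) k,
      ((Nat.multinomial univ m : ℂ) * ∏ t, f t ^ m t) * ψ x (∑ t, m t • v t) := by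
  rw [Finset.sum_pow_eq_sum_piAntidiag]
  refine Finset.sum_congr rfl fun m _ => ?_
  rw [mul_assoc]
  congr 1
  simp_rw [mul_pow]
  rw [Finset.prod_mul_distrib]
  congr 1
  have h : ∀ s : Finset ι, ψ x (∑ t ∈ s, m t • v t) = ∏ t ∈ s, ψ x (v t) ^ m t := by
    intro s
    induction s using Finset.induction_on with
    | empty => simp
    | insert a s ha ih =>
      rw [Finset.sum_insert ha, Finset.prod_insert ha, AddChar.map_add_eq_mul, ih,
        AddChar.map_nsmul_eq_pow]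
  rw [h]

lemma multinomial_sq (k : ℕ) (f : ι → ℂ) :
    ∑ m ∈ piAntidiag (univ : Finset ι) k, ‖(Nat.multinomial univ m : ℂ) * ∏ t, f t ^ m t‖ ^ 2 =
      (k.factorial : ℝ) ^ 2 * Phi k (fun t => ‖f t‖ ^ 2) := by
  unfold Phi
  rw [Finset.mul_sum]
  refine Finset.sum_congr rfl fun m hm => ?_
  rw [mem_piAntidiag] at hm
  rw [norm_mul, mul_pow, Complex.norm_natCast, norm_prod, ← Finset.prod_pow,
    Finset.prod_div_distrib]
  have e3 : (Nat.multinomial univ m : ℝ) = k.factorial / ∏ t, ((m t).factorial : ℝ) := by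
    have h3 := Nat.multinomial_spec (univ : Finset ι) m
    rw [hm.1] at h3
    have h4 : (∏ t, ((m t).factorial : ℝ)) ≠ 0 :=
      Finset.prod_ne_zero_iff.2 fun t _ => by exact_mod_cast (m t).factorial_ne_zero
    rw [eq_div_iff h4, mul_comm]
    exact_mod_cast h3
  rw [e3, div_pow, ← Finset.prod_pow]
  have e4 : ∏ t, ‖f t ^ m t‖ ^ 2 = ∏ t, (‖f t‖ ^ 2) ^ m t := by
    refine Finset.prod_congr rfl fun t _ => ?_
    rw [norm_pow, ← pow_mul, ← pow_mul, mul_comm]
  rw [e4]
  ring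

/-- The moment of order `2 k` for a family whose `k`-fold sums are different. -/
theorem moment_eq (hor : ∀ g : G, g ≠ 0 → ∑ x, ψ x g = 0) {v : ι → G} {k : ℕ} (hv : IsB k v)
    (f : ι → ℂ) :
    ∑ x, ‖∑ t, f t * ψ x (v t)‖ ^ (2 * k) =
      (Fintype.card X : ℝ) * ((k.factorial : ℝ) ^ 2 * Phi k (fun t => ‖f t‖ ^ 2)) := by
  have h1 : ∀ x, ‖∑ t, f t * ψ x (v t)‖ ^ (2 * k) =
      ‖∑ m ∈ piAntidiag (univ : Finset ι) k,
      ((Nat.multinomial univ m : ℂ) * ∏ t, f t ^ m t) * ψ x (∑ t, m t • v t)‖ ^ 2 := by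
    intro x
    rw [← pow_expand ψ v f k x, norm_pow, ← pow_mul, mul_comm k 2]
  simp_rw [h1]
  rw [← multinomial_sq k f]
  have h2 := sum_sq ψ hor (piAntidiag (univ : Finset ι) k)
    (fun m => (Nat.multinomial univ m : ℂ) * ∏ t, f t ^ m t) (fun m => ∑ t, m t • v t)
  have h3 : ∀ a ∈ piAntidiag (univ : Finset ι) k,
      (∑ b ∈ piAntidiag (univ : Finset ι) k,
        if ∑ t, a t • v t = ∑ t, b t • v t then
          ((Nat.multinomial univ a : ℂ) * ∏ t, f t ^ a t) *
            conj ((Nat.multinomial univ b : ℂ) * ∏ t, f t ^ b t) else 0) =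
        ((‖(Nat.multinomial univ a : ℂ) * ∏ t, f t ^ a t‖ ^ 2 : ℝ) : ℂ) := by
    intro a ha
    rw [Finset.sum_eq_single_of_mem a ha]
    · rw [if_pos rfl, Complex.mul_conj']
      push_cast
      rfl
    · intro b hb hab
      rw [if_neg]
      intro h
      rw [mem_piAntidiag] at ha hb
      exact hab (hv b a hb.1 ha.1 h.symm)
  rw [Finset.sum_congr rfl h3] at h2
  exact_mod_cast h2

/-- The moment of order `2 k` of the sum with coefficients `1`: lower bound, which is strict if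
two sums of `k` members are equal. -/
theorem moment_one (hor : ∀ g : G, g ≠ 0 → ∑ x, ψ x g = 0) [Nonempty X] (v : ι → G) (k : ℕ)
    (hv : ¬ IsB k v) :
    (Fintype.card X : ℝ) * ((k.factorial : ℝ) ^ 2 * Phi k (fun _ : ι => (1 : ℝ))) <
      ∑ x, ‖∑ t, ψ x (v t)‖ ^ (2 * k) := by
  have h1 : ∀ x, ‖∑ t, ψ x (v t)‖ ^ (2 * k) =
      ‖∑ m ∈ piAntidiag (univ : Finset ι) k,
      (Nat.multinomial univ m : ℂ) * ψ x (∑ t, m t • v t)‖ ^ 2 := by
    intro x
    have h := pow_expand ψ v (fun _ => (1 : ℂ)) k x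
    simp only [one_mul, one_pow, Finset.prod_const_one, mul_one] at h
    rw [← h, norm_pow, ← pow_mul, mul_comm k 2]
  simp_rw [h1]
  have h2 := sum_sq ψ hor (piAntidiag (univ : Finset ι) k)
    (fun m => (Nat.multinomial univ m : ℂ)) (fun m => ∑ t, m t • v t)
  have h2' : (∑ x, ‖∑ m ∈ piAntidiag (univ : Finset ι) k,
      (Nat.multinomial univ m : ℂ) * ψ x (∑ t, m t • v t)‖ ^ 2) =
      (Fintype.card X : ℝ) * ∑ a ∈ piAntidiag (univ : Finset ι) k,
        ∑ b ∈ piAntidiag (univ : Finset ι) k,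
        if ∑ t, a t • v t = ∑ t, b t • v t then
          (Nat.multinomial univ a : ℝ) * (Nat.multinomial univ b : ℝ) else 0 := by
    have h3 : ∀ a b : ι → ℕ, (if ∑ t, a t • v t = ∑ t, b t • v t then
        (Nat.multinomial univ a : ℂ) * conj (Nat.multinomial univ b : ℂ) else 0) =
        (((if ∑ t, a t • v t = ∑ t, b t • v t then
          (Nat.multinomial univ a : ℝ) * (Nat.multinomial univ b : ℝ) else 0) : ℝ) : ℂ) := by
      intro a b
      split_ifs
      · push_cast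
        simp
      · simp
    simp_rw [h3] at h2
    exact_mod_cast h2
  rw [h2']
  have hX : (0 : ℝ) < Fintype.card X := by exact_mod_cast Fintype.card_pos
  refine mul_lt_mul_of_pos_left ?_ hX
  have h4 := multinomial_sq k (fun _ : ι => (1 : ℂ))
  simp only [one_pow, Finset.prod_const_one, mul_one, norm_one, Complex.norm_natCast] at h4
  rw [← h4]
  have hnn : ∀ a b : ι → ℕ, (0 : ℝ) ≤ if ∑ t, a t • v t = ∑ t, b t • v t then
      (Nat.multinomial univ a : ℝ) * (Nat.multinomial univ b : ℝ) else 0 := by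
    intro a b
    split_ifs
    · positivity
    · exact le_rfl
  have hle : ∀ a ∈ piAntidiag (univ : Finset ι) k, (Nat.multinomial univ a : ℝ) ^ 2 ≤
      ∑ b ∈ piAntidiag (univ : Finset ι) k, if ∑ t, a t • v t = ∑ t, b t • v t then
      (Nat.multinomial univ a : ℝ) * (Nat.multinomial univ b : ℝ) else 0 := by
    intro a ha
    refine le_trans (le_of_eq ?_) (Finset.single_le_sum (fun b _ => hnn a b) ha)
    rw [if_pos rfl, sq]
  unfold IsB at hv
  push Not at hv
  obtain ⟨a, b, ha, hb, hab, hne⟩ := hv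
  have ha' : a ∈ piAntidiag (univ : Finset ι) k := by
    rw [mem_piAntidiag]; exact ⟨ha, fun i _ => mem_univ i⟩
  have hb' : b ∈ piAntidiag (univ : Finset ι) k := by
    rw [mem_piAntidiag]; exact ⟨hb, fun i _ => mem_univ i⟩
  refine Finset.sum_lt_sum hle ⟨a, ha', ?_⟩
  have h5 : (Nat.multinomial univ a : ℝ) ^ 2 = ∑ c ∈ ({a} : Finset (ι → ℕ)),
      if ∑ t, a t • v t = ∑ t, c t • v t then
      (Nat.multinomial univ a : ℝ) * (Nat.multinomial univ c : ℝ) else 0 := by
    rw [Finset.sum_singleton, if_pos rfl, sq]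
  rw [h5]
  refine Finset.sum_lt_sum_of_subset (by simpa using ha') hb' (by simpa using hne.symm) ?_
    (fun c _ _ => hnn a c)
  rw [if_pos hab]
  have e1 : 0 < Nat.multinomial univ a := Nat.multinomial_pos _ _
  have e2 : 0 < Nat.multinomial univ b := Nat.multinomial_pos _ _
  positivity

end abstract

/-- The optimal inequality. -/
theorem opt [Nonempty ι] {k : ℕ} (hk : 2 ≤ k) (f : ι → ℂ) :
    Phi k (fun t => ‖f t‖ ^ 2) ≤ ((∑ t, ‖f t‖ ^ 2) / Fintype.card ι) ^ k *
      Phi k (fun _ : ι => (1 : ℝ)) ∧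
    (Phi k (fun t => ‖f t‖ ^ 2) = ((∑ t, ‖f t‖ ^ 2) / Fintype.card ι) ^ k *
      Phi k (fun _ : ι => (1 : ℝ)) ↔ ∀ s t, ‖f s‖ = ‖f t‖) := by
  refine ⟨(Phi_le k hk (fun t => ‖f t‖ ^ 2) fun t => by positivity).1, ?_, ?_⟩
  · intro h s t
    have h1 := (Phi_le k hk (fun t => ‖f t‖ ^ 2) fun t => by positivity).2 h s t
    exact (pow_left_inj₀ (norm_nonneg _) (norm_nonneg _) (by norm_num)).1 h1
  · intro hf
    obtain ⟨t₀⟩ := (inferInstance : Nonempty ι)
    have h1 : (fun t => ‖f t‖ ^ 2) = fun _ => ‖f t₀‖ ^ 2 := by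
      funext t; rw [hf t t₀]
    have hq : (0 : ℝ) < Fintype.card ι := by exact_mod_cast Fintype.card_pos
    rw [h1, Phi_const, Finset.sum_const, card_univ, nsmul_eq_mul]
    congr 2
    field_simp

end Pool.Agent.KS6_25.BK
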